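import Mathlib

set_option autoImplicit false

/-!
DG categories over a field, DG functors, quasi-equivalences; DG algebras, right DG modules,
the DG category of perfect DG modules; the DG category of K-injective complexes in a class.
-/

universe u v w v' w' v'' w''

open CategoryTheory

namespace Pool.Agent.N212.DG

/-- A DG category over the field `k`: complexes of vector spaces of morphisms, bilinear
compositions (written in the order of the arrows) which are morphisms of complexes, identities. -/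
structure DGCat (k : Type u) [Field k] where
  /-- the objects -/
  Obj : Type v
  /-- the morphisms of degree `n` -/
  Hom : Obj → Obj → ℤ → Type w
  [grp : ∀ X Y n, AddCommGroup (Hom X Y n)]
  [mod : ∀ X Y n, Module k (Hom X Y n)]
  /-- the differential -/
  d : ∀ {X Y : Obj} (p q : ℤ), p + 1 = q → Hom X Y p →ₗ[k] Hom X Y q
  /-- the composition -/
  comp : ∀ {X Y Z : Obj} {p q r : ℤ}, p + q = r → Hom X Y p →ₗ[k] Hom Y Z q →ₗ[k] Hom X Z r
  /-- the identity -/
  one : ∀ X, Hom X X 0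
  one_comp : ∀ {X Y : Obj} {p : ℤ} (f : Hom X Y p), comp (zero_add p) (one X) f = f
  comp_one : ∀ {X Y : Obj} {p : ℤ} (f : Hom X Y p), comp (add_zero p) f (one Y) = f
  assoc : ∀ {X Y Z W : Obj} {p q r pq qr pqr : ℤ} (h₁ : p + q = pq) (h₂ : q + r = qr)
    (h₃ : pq + r = pqr) (h₄ : p + qr = pqr) (f : Hom X Y p) (g : Hom Y Z q) (h : Hom Z W r),
    comp h₃ (comp h₁ f g) h = comp h₄ f (comp h₂ g h)
  d_d : ∀ {X Y : Obj} {p q r : ℤ} (h₁ : p + 1 = q) (h₂ : q + 1 = r) (f : Hom X Y p),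
    d q r h₂ (d p q h₁ f) = 0
  d_comp : ∀ {X Y Z : Obj} {p q r p' q' r' : ℤ} (h : p + q = r) (hp : p + 1 = p')
    (hq : q + 1 = q') (hr : r + 1 = r') (h₁ : p + q' = r') (h₂ : p' + q = r')
    (f : Hom X Y p) (g : Hom Y Z q),
    d r r' hr (comp h f g) = comp h₁ f (d q q' hq g) + q.negOnePow • comp h₂ (d p p' hp f) g

attribute [instance] DGCat.grp DGCat.mod

variable {k : Type u} [Field k]

/-- A DG functor. -/
structure DGFun (A : DGCat.{u, v, w} k) (B : DGCat.{u, v', w'} k) where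
  /-- on objects -/
  obj : A.Obj → B.Obj
  /-- on morphisms -/
  map : ∀ {X Y : A.Obj} {n : ℤ}, A.Hom X Y n →ₗ[k] B.Hom (obj X) (obj Y) n
  map_d : ∀ {X Y : A.Obj} {p q : ℤ} (h : p + 1 = q) (f : A.Hom X Y p),
    map (A.d p q h f) = B.d p q h (map f)
  map_comp : ∀ {X Y Z : A.Obj} {p q r : ℤ} (h : p + q = r) (f : A.Hom X Y p) (g : A.Hom Y Z q),
    map (A.comp h f g) = B.comp h (map f) (map g)
  map_one : ∀ X : A.Obj, map (A.one X) = B.one (obj X)

/-- Two objects of a DG category are homotopy equivalent: isomorphic in the category of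
closed morphisms of degree zero modulo exact ones. -/
def HEquiv (B : DGCat.{u, v, w} k) (X Y : B.Obj) : Prop :=
  ∃ (f : B.Hom X Y 0) (g : B.Hom Y X 0) (s : B.Hom X X (-1)) (t : B.Hom Y Y (-1)),
    B.d 0 1 rfl f = 0 ∧ B.d 0 1 rfl g = 0 ∧
    B.comp (add_zero 0) f g = B.one X + B.d (-1) 0 rfl s ∧
    B.comp (add_zero 0) g f = B.one Y + B.d (-1) 0 rfl t

/-- A DG functor is a quasi-equivalence if it induces bijections on the cohomology of the
complexes of morphisms and each object of the target is homotopy equivalent to an object in the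
image. -/
structure DGFun.IsQuasiEquiv {A : DGCat.{u, v, w} k} {B : DGCat.{u, v', w'} k}
    (F : DGFun A B) : Prop where
  surj : ∀ (X Y : A.Obj) (p q r : ℤ) (h₁ : p + 1 = q) (h₂ : q + 1 = r)
    (z : B.Hom (F.obj X) (F.obj Y) q), B.d q r h₂ z = 0 →
    ∃ (f : A.Hom X Y q) (b : B.Hom (F.obj X) (F.obj Y) p), A.d q r h₂ f = 0 ∧
      F.map f = z + B.d p q h₁ b
  inj : ∀ (X Y : A.Obj) (p q r : ℤ) (h₁ : p + 1 = q) (h₂ : q + 1 = r)
    (f : A.Hom X Y q), A.d q r h₂ f = 0 → ∀ b : B.Hom (F.obj X) (F.obj Y) p,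
      F.map f = B.d p q h₁ b → ∃ a : A.Hom X Y p, f = A.d p q h₁ a
  ess : ∀ Y : B.Obj, ∃ X : A.Obj, HEquiv B (F.obj X) Y

/-- Two DG categories are quasi-equivalent if they are connected by a roof of
quasi-equivalences. -/
def QuasiEquivalent (A : DGCat.{u, v, w} k) (B : DGCat.{u, v', w'} k) : Prop :=
  ∃ (C : DGCat.{u, max v v', max w w'} k) (F : DGFun C A) (G : DGFun C B),
    F.IsQuasiEquiv ∧ G.IsQuasiEquiv

/-! ### DG algebras and DG modules -/

/-- A DG algebra over the field `k`. -/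
structure DGAlg (k : Type u) [Field k] where
  /-- the homogeneous elements of degree `n` -/
  A : ℤ → Type w
  [grp : ∀ n, AddCommGroup (A n)]
  [mod : ∀ n, Module k (A n)]
  /-- the differential -/
  d : ∀ (p q : ℤ), p + 1 = q → A p →ₗ[k] A q
  /-- the product -/
  mul : ∀ {p q r : ℤ}, p + q = r → A p →ₗ[k] A q →ₗ[k] A r
  /-- the unit -/
  one : A 0
  one_mul : ∀ {p : ℤ} (a : A p), mul (zero_add p) one a = a
  mul_one : ∀ {p : ℤ} (a : A p), mul (add_zero p) a one = a
  assoc : ∀ {p q r pq qr pqr : ℤ} (h₁ : p + q = pq) (h₂ : q + r = qr)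
    (h₃ : pq + r = pqr) (h₄ : p + qr = pqr) (a : A p) (b : A q) (c : A r),
    mul h₃ (mul h₁ a b) c = mul h₄ a (mul h₂ b c)
  d_d : ∀ {p q r : ℤ} (h₁ : p + 1 = q) (h₂ : q + 1 = r) (a : A p), d q r h₂ (d p q h₁ a) = 0
  d_mul : ∀ {p q r p' q' r' : ℤ} (h : p + q = r) (hp : p + 1 = p')
    (hq : q + 1 = q') (hr : r + 1 = r') (h₁ : p + q' = r') (h₂ : p' + q = r')
    (a : A p) (b : A q),
    d r r' hr (mul h a b) = mul h₂ (d p p' hp a) b + p.negOnePow • mul h₁ a (d q q' hq b)

attribute [instance] DGAlg.grp DGAlg.mod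

/-- A DG algebra is finite-dimensional if the sum of the dimensions of its homogeneous parts is
finite. -/
def DGAlg.IsFiniteDimensional (R : DGAlg.{u, w} k) : Prop :=
  (∀ n, Module.Finite k (R.A n)) ∧ {n | Nontrivial (R.A n)}.Finite

/-- A right DG module over a DG algebra. -/
structure DGMod (R : DGAlg.{u, w} k) where
  /-- the homogeneous elements of degree `n` -/
  M : ℤ → Type v
  [grp : ∀ n, AddCommGroup (M n)]
  [mod : ∀ n, Module k (M n)]
  /-- the differential -/
  d : ∀ (p q : ℤ), p + 1 = q → M p →ₗ[k] M q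
  /-- the action -/
  act : ∀ {p q r : ℤ}, p + q = r → M p →ₗ[k] R.A q →ₗ[k] M r
  act_one : ∀ {p : ℤ} (m : M p), act (add_zero p) m R.one = m
  assoc : ∀ {p q r pq qr pqr : ℤ} (h₁ : p + q = pq) (h₂ : q + r = qr)
    (h₃ : pq + r = pqr) (h₄ : p + qr = pqr) (m : M p) (a : R.A q) (b : R.A r),
    act h₃ (act h₁ m a) b = act h₄ m (R.mul h₂ a b)
  d_d : ∀ {p q r : ℤ} (h₁ : p + 1 = q) (h₂ : q + 1 = r) (m : M p), d q r h₂ (d p q h₁ m) = 0
  d_act : ∀ {p q r p' q' r' : ℤ} (h : p + q = r) (hp : p + 1 = p')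
    (hq : q + 1 = q') (hr : r + 1 = r') (h₁ : p + q' = r') (h₂ : p' + q = r')
    (m : M p) (a : R.A q),
    d r r' hr (act h m a) = act h₂ (d p p' hp m) a + p.negOnePow • act h₁ m (R.d q q' hq a)

attribute [instance] DGMod.grp DGMod.mod

variable {R : DGAlg.{u, w} k}

/-- Pairs of degrees with difference `n`. -/
structure Pr (n : ℤ) where
  /-- the first degree -/
  p : ℤ
  /-- the second degree -/
  q : ℤ
  h : p + n = q

/-- Morphisms of degree `n` of right DG modules: families of linear maps commuting with the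
action. -/
def DGMod.Mor (M N : DGMod.{u, v, w} R) (n : ℤ) :
    Submodule k (∀ t : Pr n, M.M t.p →ₗ[k] N.M t.q) where
  carrier := {f | ∀ (p r s q q' : ℤ) (h : p + n = q) (h₁ : p + r = s) (h₂ : s + n = q')
    (h₃ : q + r = q') (m : M.M p) (a : R.A r),
    f ⟨s, q', h₂⟩ (M.act h₁ m a) = N.act h₃ (f ⟨p, q, h⟩ m) a}
  add_mem' := by
    intro f g hf hg p r s q q' h h₁ h₂ h₃ m a
    simp only [Pi.add_apply, LinearMap.add_apply, hf p r s q q' h h₁ h₂ h₃ m a,
      hg p r s q q' h h₁ h₂ h₃ m a, map_add]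
  zero_mem' := by
    intro p r s q q' h h₁ h₂ h₃ m a
    simp
  smul_mem' := by
    intro c f hf p r s q q' h h₁ h₂ h₃ m a
    simp only [Pi.smul_apply, LinearMap.smul_apply, hf p r s q q' h h₁ h₂ h₃ m a, map_smul]

/-- The value of a morphism. -/
def ev {M N : DGMod.{u, v, w} R} {n : ℤ} (f : DGMod.Mor M N n) (p q : ℤ)
    (h : p + n = q) : M.M p →ₗ[k] N.M q := f.1 ⟨p, q, h⟩

lemma ev_ext {M N : DGMod.{u, v, w} R} {n : ℤ} {f g : DGMod.Mor M N n}
    (h : ∀ (p q : ℤ) (h : p + n = q) (m : M.M p), ev f p q h m = ev g p q h m) : f = g := by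
  apply Subtype.ext
  funext t
  exact LinearMap.ext fun m => h t.p t.q t.h m

lemma ev_act {M N : DGMod.{u, v, w} R} {n : ℤ} (f : DGMod.Mor M N n)
    {p r s q q' : ℤ} (h : p + n = q) (h₁ : p + r = s) (h₂ : s + n = q')
    (h₃ : q + r = q') (m : M.M p) (a : R.A r) :
    ev f s q' h₂ (M.act h₁ m a) = N.act h₃ (ev f p q h m) a := f.2 p r s q q' h h₁ h₂ h₃ m a

/-- A morphism of degree `n` from its values. -/
def mk (M N : DGMod.{u, v, w} R) (n : ℤ) (f : ∀ p q : ℤ, p + n = q → M.M p →ₗ[k] N.M q)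
    (hf : ∀ (p r s q q' : ℤ) (h : p + n = q) (h₁ : p + r = s) (h₂ : s + n = q')
    (h₃ : q + r = q') (m : M.M p) (a : R.A r),
    f s q' h₂ (M.act h₁ m a) = N.act h₃ (f p q h m) a) : DGMod.Mor M N n :=
  ⟨fun t => f t.p t.q t.h, hf⟩

lemma ev_add {M N : DGMod.{u, v, w} R} {n : ℤ} (f g : DGMod.Mor M N n) (p q : ℤ)
    (h : p + n = q) (m : M.M p) : ev (f + g) p q h m = ev f p q h m + ev g p q h m := rfl

lemma ev_smul {M N : DGMod.{u, v, w} R} {n : ℤ} (c : k) (f : DGMod.Mor M N n) (p q : ℤ)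
    (h : p + n = q) (m : M.M p) : ev (c • f) p q h m = c • ev f p q h m := rfl

lemma ev_units_smul {M N : DGMod.{u, v, w} R} {n : ℤ} (c : ℤˣ) (f : DGMod.Mor M N n) (p q : ℤ)
    (h : p + n = q) (m : M.M p) : ev (c • f) p q h m = c • ev f p q h m := by
  rcases Int.units_eq_one_or c with rfl | rfl
  · rw [one_smul, one_smul]
  · rw [Units.neg_smul, one_smul, Units.neg_smul, one_smul]
    rfl

lemma ev_zero {M N : DGMod.{u, v, w} R} {n : ℤ} (p q : ℤ)
    (h : p + n = q) (m : M.M p) : ev (0 : DGMod.Mor M N n) p q h m = 0 := rfl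

lemma sg_add (m n : ℤ) : (((m + n).negOnePow : ℤˣ) : ℤ) =
    ((m.negOnePow : ℤˣ) : ℤ) * ((n.negOnePow : ℤˣ) : ℤ) := by
  rw [Int.negOnePow_add, Units.val_mul]

lemma sg_one : (((1 : ℤ).negOnePow : ℤˣ) : ℤ) = -1 := by
  rw [Int.negOnePow_one]
  rfl

lemma sg_sq (n : ℤ) : ((n.negOnePow : ℤˣ) : ℤ) * ((n.negOnePow : ℤˣ) : ℤ) = 1 := by
  rw [← Units.val_mul, Int.units_mul_self, Units.val_one]

/-- The differential of a morphism of degree `n`: `d ∘ f - (-1) ^ n f ∘ d`. -/
def del (M N : DGMod.{u, v, w} R) (n m : ℤ) (hnm : n + 1 = m) :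
    DGMod.Mor M N n →ₗ[k] DGMod.Mor M N m where
  toFun f := mk M N m (fun p q h => (N.d (p + n) q (by lia)) ∘ₗ ev f p (p + n) rfl +
      m.negOnePow • (ev f (p + 1) q (by lia)) ∘ₗ M.d p (p + 1) rfl) (by
    intro p r s q q' h h₁ h₂ h₃ x a
    simp only [LinearMap.add_apply, LinearMap.comp_apply, LinearMap.smul_apply]
    rw [M.d_act h₁ rfl rfl rfl (by lia) (by lia) x a, map_add,
      ev_act f (p := p) (q := p + n) rfl h₁ rfl (by lia) x a,
      ev_act f (p := p + 1) (q := q) (by lia) (by lia) (by lia) h₃ _ a]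
    rw [N.d_act (p := p + n) (q := r) (by lia) (p' := q) (by lia) rfl (by lia) (by lia) (h₃)]
    simp only [Units.smul_def, map_zsmul, map_add, LinearMap.add_apply, LinearMap.smul_apply]
    rw [ev_act f (p := p) (q := p + n) rfl (by lia) (by lia) (by lia) x]
    subst hnm
    simp only [sg_add, sg_one, smul_add, smul_smul]
    have e : ((n.negOnePow : ℤˣ) : ℤ) * -1 * ((p.negOnePow : ℤˣ) : ℤ) =
      -(((p.negOnePow : ℤˣ) : ℤ) * ((n.negOnePow : ℤˣ) : ℤ)) := by ring
    rw [e, neg_smul]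
    abel)
  map_add' f g := by
    apply ev_ext
    intro p q h x
    change N.d _ _ _ (ev (f + g) _ _ _ x) + m.negOnePow • ev (f + g) _ _ _ (M.d _ _ _ x) =
      (N.d _ _ _ (ev f _ _ _ x) + m.negOnePow • ev f _ _ _ (M.d _ _ _ x)) +
      (N.d _ _ _ (ev g _ _ _ x) + m.negOnePow • ev g _ _ _ (M.d _ _ _ x))
    rw [ev_add, ev_add, map_add, smul_add]
    abel
  map_smul' c f := by
    apply ev_ext
    intro p q h x
    change N.d _ _ _ (ev (c • f) _ _ _ x) + m.negOnePow • ev (c • f) _ _ _ (M.d _ _ _ x) =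
      c • (N.d _ _ _ (ev f _ _ _ x) + m.negOnePow • ev f _ _ _ (M.d _ _ _ x))
    rw [ev_smul, ev_smul, map_smul, smul_add, Units.smul_def, Units.smul_def, smul_comm]

lemma ev_del {M N : DGMod.{u, v, w} R} {n m : ℤ} (hnm : n + 1 = m) (f : DGMod.Mor M N n)
    (p q r s : ℤ) (h : p + m = q) (h₁ : p + n = r) (h₂ : r + 1 = q) (h₃ : p + 1 = s)
    (h₄ : s + n = q) (x : M.M p) :
    ev (del M N n m hnm f) p q h x = N.d r q h₂ (ev f p r h₁ x) +
      m.negOnePow • ev f s q h₄ (M.d p s h₃ x) := by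
  subst h₁ h₃
  rfl

/-- The composition of morphisms of DG modules, in the order of the arrows. -/
def cmp (M N P : DGMod.{u, v, w} R) (m n l : ℤ) (h : m + n = l) :
    DGMod.Mor M N m →ₗ[k] DGMod.Mor N P n →ₗ[k] DGMod.Mor M P l :=
  LinearMap.mk₂ k (fun f g => mk M P l (fun p q h' =>
    ev g (p + m) q (by lia) ∘ₗ ev f p (p + m) rfl) (by
      intro p r s q q' h' h₁ h₂ h₃ x a
      simp only [LinearMap.comp_apply]
      rw [ev_act f (p := p) (q := p + m) rfl h₁ rfl (by lia) x a,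
        ev_act g (p := p + m) (q := q) (by lia) (by lia) (by lia) h₃]))
    (by
      intro f f' g
      apply ev_ext
      intro p q h' x
      exact map_add (ev g _ _ _) _ _)
    (by
      intro c f g
      apply ev_ext
      intro p q h' x
      exact map_smul (ev g _ _ _) _ _)
    (by
      intro f g g'
      apply ev_ext
      intro p q h' x
      rfl)
    (by
      intro c f g
      apply ev_ext
      intro p q h' x
      rfl)

lemma ev_cmp {M N P : DGMod.{u, v, w} R} {m n l : ℤ} (h : m + n = l)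
    (f : DGMod.Mor M N m) (g : DGMod.Mor N P n) (p q r : ℤ) (h₁ : p + l = q)
    (h₂ : p + m = r) (h₃ : r + n = q) (x : M.M p) :
    ev (cmp M N P m n l h f g) p q h₁ x = ev g r q h₃ (ev f p r h₂ x) := by
  subst h₂
  rfl

/-- Transport along an equality of degrees. -/
def cst {V : ℤ → Type v} [∀ n, AddCommGroup (V n)] [∀ n, Module k (V n)] {p q : ℤ} (h : p = q) :
    V p →ₗ[k] V q := h ▸ LinearMap.id

/-- The identity of a DG module. -/
def idm (M : DGMod.{u, v, w} R) : DGMod.Mor M M 0 :=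
  mk M M 0 (fun p q h => cst (by lia : p = q)) (by
    intro p r s q q' h h₁ h₂ h₃ m a
    obtain rfl : p = q := by lia
    obtain rfl : s = q' := by lia
    rfl)

lemma ev_idm (M : DGMod.{u, v, w} R) (p : ℤ) (h : p + 0 = p) (m : M.M p) :
    ev (idm M) p p h m = m := rfl

/-- The DG category of all right DG modules. -/
def ModDG (R : DGAlg.{u, w} k) : DGCat.{u, max u w (v + 1), v} k where
  Obj := DGMod.{u, v, w} R
  Hom M N n := DGMod.Mor M N n
  d {M N} p q h := del M N p q h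
  comp {M N P} p q r h := cmp M N P p q r h
  one M := idm M
  one_comp {M N} p f := by
    apply ev_ext
    intro a b h x
    rw [ev_cmp (zero_add p) (idm M) f a b a h (by lia) h, ev_idm]
  comp_one {M N} p f := by
    apply ev_ext
    intro a b h x
    rw [ev_cmp (add_zero p) f (idm N) a b b h h (by lia), ev_idm]
  assoc {X Y Z W} p q r pq qr pqr h₁ h₂ h₃ h₄ f g h := by
    apply ev_ext
    intro a b hab x
    rw [ev_cmp h₃ _ h a b (a + pq) hab rfl (by lia),
      ev_cmp h₁ f g a (a + pq) (a + p) rfl rfl (by lia),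
      ev_cmp h₄ f _ a b (a + p) hab rfl (by lia),
      ev_cmp h₂ g h (a + p) b (a + pq) (by lia) (by lia) (by lia)]
  d_d {X Y} p q r h₁ h₂ f := by
    apply ev_ext
    intro a b hab x
    rw [ev_del h₂ _ a b (a + q) (a + 1) hab rfl (by lia) rfl (by lia),
      ev_del h₁ f a (a + q) (a + p) (a + 1) rfl rfl (by lia) rfl (by lia),
      ev_del h₁ f (a + 1) b (a + q) (a + 1 + 1) (by lia) (by lia) (by lia) rfl (by lia),
      map_add, Y.d_d, X.d_d, map_zero, smul_zero, add_zero, zero_add, ev_zero]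
    subst h₁ h₂
    simp only [Units.smul_def, map_zsmul, sg_add, sg_one]
    rw [mul_neg_one, mul_neg_one, neg_neg, neg_smul, neg_add_cancel]
  d_comp {X Y Z} p q r p' q' r' h hp hq hr h₁ h₂ f g := by
    apply ev_ext
    intro a b hab x
    obtain ⟨a', ha'⟩ : ∃ a', a + 1 = a' := ⟨_, rfl⟩
    obtain ⟨c, hc⟩ : ∃ c, a + p = c := ⟨_, rfl⟩
    obtain ⟨c', hc'⟩ : ∃ c', c + 1 = c' := ⟨_, rfl⟩
    obtain ⟨t, ht⟩ : ∃ t, a + r = t := ⟨_, rfl⟩
    rw [ev_add, ev_units_smul, ev_del hr _ a b t a' hab ht (by lia) ha' (by lia),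
      ev_cmp h f g a t c ht hc (by lia),
      ev_cmp h f g a' b c' (by lia) (by lia) (by lia),
      ev_cmp h₁ f _ a b c hab hc (by lia),
      ev_cmp h₂ _ g a b c' hab (by lia) (by lia),
      ev_del hq g c b t c' (by lia) (by lia) (by lia) hc' (by lia),
      ev_del hp f a c' c a' (by lia) hc hc' ha' (by lia)]
    subst hp hq hr h
    simp only [Units.smul_def, map_zsmul, map_add, sg_add, sg_one, smul_add, smul_smul]
    have e1 : (((q.negOnePow : ℤˣ) : ℤ)) * (((p.negOnePow : ℤˣ) : ℤ) * -1) =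
      ((p.negOnePow : ℤˣ) : ℤ) * ((q.negOnePow : ℤˣ) : ℤ) * -1 := by ring
    have e2 : ((q.negOnePow : ℤˣ) : ℤ) * -1 = -((q.negOnePow : ℤˣ) : ℤ) := by ring
    rw [e1, e2, neg_smul]
    abel

/-- A DG algebra as a right DG module. -/
def free (R : DGAlg.{u, w} k) : DGMod.{u, w, w} R where
  M := R.A
  d := R.d
  act := R.mul
  act_one := R.mul_one
  assoc := R.assoc
  d_d := R.d_d
  d_act := R.d_mul

/-- The shift of a right DG module. -/
def shift (M : DGMod.{u, v, w} R) (n : ℤ) : DGMod.{u, v, w} R where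
  M p := M.M (p + n)
  d p q h := n.negOnePow • M.d (p + n) (q + n) (by lia)
  act {p q r} h := M.act (by lia)
  act_one m := M.act_one m
  assoc h₁ h₂ h₃ h₄ m a b := M.assoc _ h₂ _ _ m a b
  d_d h₁ h₂ m := by
    simp only [Units.smul_def, LinearMap.smul_apply, map_zsmul]
    rw [M.d_d, smul_zero, smul_zero]
  d_act {p q r p' q' r'} h hp hq hr h₁ h₂ m a := by
    simp only [Units.smul_def, LinearMap.smul_apply, map_zsmul]
    rw [M.d_act (p' := p' + n) (by lia) (by lia) hq (by lia) (by lia) (by lia) m a]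
    simp only [Units.smul_def, sg_add, smul_add, smul_smul]
    have e : ((n.negOnePow : ℤˣ) : ℤ) * (((p.negOnePow : ℤˣ) : ℤ) * ((n.negOnePow : ℤˣ) : ℤ)) =
        ((p.negOnePow : ℤˣ) : ℤ) * (((n.negOnePow : ℤˣ) : ℤ) * ((n.negOnePow : ℤˣ) : ℤ)) := by ring
    rw [e, sg_sq, mul_one]

/-- The cone of a closed morphism of degree zero. -/
def cone {M N : DGMod.{u, v, w} R} (f : DGMod.Mor M N 0) (hf : del M N 0 1 rfl f = 0) :
    DGMod.{u, v, w} R where
  M p := N.M p × M.M (p + 1)
  d p q h := LinearMap.prod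
    (N.d p q h ∘ₗ LinearMap.fst k _ _ + ev f (p + 1) q (by lia) ∘ₗ LinearMap.snd k _ _)
    (-(M.d (p + 1) (q + 1) (by lia) ∘ₗ LinearMap.snd k _ _))
  act {p q r} h := LinearMap.mk₂ k (fun x a => (N.act h x.1 a, M.act (by lia) x.2 a))
    (by intro x y a; simp) (by intro c x a; simp) (by intro x a b; simp) (by intro c x a; simp)
  act_one m := Prod.ext (N.act_one m.1) (M.act_one m.2)
  assoc h₁ h₂ h₃ h₄ m a b := Prod.ext (N.assoc _ h₂ _ _ m.1 a b) (M.assoc _ h₂ _ _ m.2 a b)
  d_d {p q r} h₁ h₂ m := by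
    have hf' := congrArg (fun g => ev g (p + 1) r (by lia) m.2) hf
    rw [ev_del (zero_add 1) f (p + 1) r (q) (q + 1) (by lia) (by lia) (by lia) (by lia) (by lia) m.2,
      ev_zero, Int.negOnePow_one, Units.neg_smul, one_smul] at hf'
    apply Prod.ext
    · change N.d q r h₂ (N.d p q h₁ m.1 + ev f (p + 1) q _ m.2) +
        ev f (q + 1) r _ (-(M.d (p + 1) (q + 1) _ m.2)) = 0
      rw [map_add, N.d_d, zero_add, map_neg]
      exact hf'
    · change -(M.d (q + 1) (r + 1) _ (-(M.d (p + 1) (q + 1) _ m.2))) = 0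
      rw [map_neg, M.d_d, neg_zero, neg_zero]
  d_act {p q r p' q' r'} h hp hq hr h₁ h₂ m a := by
    apply Prod.ext
    · change N.d r r' hr (N.act h m.1 a) + ev f (r + 1) r' _ (M.act _ m.2 a) =
        N.act h₂ (N.d p p' hp m.1 + ev f (p + 1) p' _ m.2) a +
          p.negOnePow • N.act h₁ m.1 (R.d q q' hq a)
      rw [N.d_act h hp hq hr h₁ h₂, map_add, LinearMap.add_apply,
        ev_act f (p := p + 1) (q := p') (by lia) (by lia) (by lia) h₂ m.2 a]
      abel
    · change -(M.d (r + 1) (r' + 1) _ (M.act _ m.2 a)) =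
        M.act _ (-(M.d (p + 1) (p' + 1) _ m.2)) a +
          p.negOnePow • M.act _ m.2 (R.d q q' hq a)
      rw [M.d_act (p' := p' + 1) (by lia) (by lia) hq (by lia) (by lia) (by lia) m.2 a, map_neg,
        LinearMap.neg_apply]
      simp only [Units.smul_def, sg_add, sg_one, mul_neg_one, neg_smul, neg_add, neg_neg]

/-- A right DG module is perfect if it belongs to the smallest class of right DG modules which
contains the DG algebra itself and is closed under shifts, cones of closed morphisms of degree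
zero and homotopy retracts. -/
inductive IsPerf : DGMod.{u, w, w} R → Prop
  | free : IsPerf (free R)
  | shift (M : DGMod.{u, w, w} R) (n : ℤ) : IsPerf M → IsPerf (shift M n)
  | cone (M N : DGMod.{u, w, w} R) (f : DGMod.Mor M N 0) (hf : del M N 0 1 rfl f = 0) :
      IsPerf M → IsPerf N → IsPerf (cone f hf)
  | retract (M N : DGMod.{u, w, w} R) (i : DGMod.Mor N M 0) (p : DGMod.Mor M N 0)
      (s : DGMod.Mor N N (-1)) : del N M 0 1 rfl i = 0 → del M N 0 1 rfl p = 0 →
      cmp N M N 0 0 0 rfl i p = idm N + del N N (-1) 0 rfl s → IsPerf M → IsPerf N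

/-- The DG category of perfect right DG modules. -/
def PerfDG (R : DGAlg.{u, w} k) : DGCat.{u, max u (w + 1), w} k where
  Obj := {M : DGMod.{u, w, w} R // IsPerf M}
  Hom M N n := DGMod.Mor M.1 N.1 n
  d {M N} p q h := del M.1 N.1 p q h
  comp {M N P} p q r h := cmp M.1 N.1 P.1 p q r h
  one M := idm M.1
  one_comp f := (ModDG R).one_comp f
  comp_one f := (ModDG R).comp_one f
  assoc h₁ h₂ h₃ h₄ f g h := (ModDG R).assoc h₁ h₂ h₃ h₄ f g h
  d_d h₁ h₂ f := (ModDG R).d_d h₁ h₂ f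
  d_comp h hp hq hr h₁ h₂ f g := (ModDG R).d_comp h hp hq hr h₁ h₂ f g

/-! ### K-injective complexes -/

open CochainComplex.HomComplex

/-- The DG category of K-injective complexes in an abelian category which belong to a class of
objects of the derived category. -/
noncomputable def InjDG (k : Type u) [Field k] (C : Type v) [Category.{w} C] [Abelian C]
    [Linear k C] [HasDerivedCategory.{w'} C] (T : ObjectProperty (DerivedCategory C)) :
    DGCat.{u, max v w, w} k where
  Obj := {I : CochainComplex C ℤ // I.IsKInjective ∧ T (DerivedCategory.Q.obj I)}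
  Hom I J n := Cochain I.1 J.1 n
  d {I J} p q _ := δ_hom k I.1 J.1 p q
  comp {I J L} p q r h := LinearMap.mk₂ k (fun f g => f.comp g h)
    (fun _ _ _ => Cochain.add_comp ..) (fun _ _ _ => Cochain.smul_comp ..)
    (fun _ _ _ => Cochain.comp_add ..) (fun _ _ _ => Cochain.comp_smul ..)
  one I := Cochain.ofHom (𝟙 I.1)
  one_comp f := Cochain.id_comp f
  comp_one f := Cochain.comp_id f
  assoc h₁ h₂ h₃ h₄ f g h := Cochain.comp_assoc f g h h₁ h₂ (by lia)
  d_d h₁ h₂ f := δ_δ _ _ _ f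
  d_comp h hp hq hr h₁ h₂ f g := δ_comp f g h _ _ _ hr hp hq

/-- A left DG action of a DG algebra on a complex in an abelian category. -/
structure Action (R : DGAlg.{u, w} k) {C : Type v} [Category.{w} C] [Abelian C]
    [Linear k C] (K : CochainComplex C ℤ) where
  /-- the action -/
  act : ∀ n : ℤ, R.A n →ₗ[k] Cochain K K n
  act_one : act 0 R.one = Cochain.ofHom (𝟙 K)
  act_mul : ∀ {p q r : ℤ} (h : p + q = r) (a : R.A p) (b : R.A q),
    act r (R.mul h a b) = (act q b).comp (act p a) (by lia)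
  act_d : ∀ {p q : ℤ} (h : p + 1 = q) (a : R.A p), act q (R.d p q h a) = δ p q (act p a)

/-- DG Morita theory: if the DG algebra `R` acts on the complex `K`, `K ⟶ I` is a K-injective
resolution and `R` computes the derived endomorphisms of `K`, then the DG category of perfect
DG modules is quasi-equivalent to the DG category of K-injective complexes in the thick
subcategory generated by `I`. -/
def StmMorita : Prop :=
  ∀ (k : Type u) [Field k] (C : Type v) [Category.{w} C] [Abelian C]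
    [Linear k C] [HasDerivedCategory.{w'} C] [Limits.HasCountableProducts C]
    (R : DGAlg.{u, w} k) (K I : CochainComplex C ℤ) (ρ : Action R K) [I.IsKInjective]
    (κ : K ⟶ I) [QuasiIso κ]
    (_ : ∀ (p q r : ℤ) (_ : p + 1 = q) (h₂ : q + 1 = r) (z : Cochain K I q), δ q r z = 0 →
      ∃ (a : R.A q) (b : Cochain K I p), R.d q r h₂ a = 0 ∧
        (ρ.act q a).comp (Cochain.ofHom κ) (add_zero q) = z + δ p q b)
    (_ : ∀ (p q r : ℤ) (h₁ : p + 1 = q) (h₂ : q + 1 = r) (a : R.A q), R.d q r h₂ a = 0 →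
      ∀ b : Cochain K I p, (ρ.act q a).comp (Cochain.ofHom κ) (add_zero q) = δ p q b →
        ∃ a' : R.A p, a = R.d p q h₁ a'),
    QuasiEquivalent (InjDG k C
      (ObjectProperty.ofObj fun _ : Unit => DerivedCategory.Q.obj I).triangEnvelope) (PerfDG R)

end Pool.Agent.N212.DG
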