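import Pool.Agent.N212.DG.Defs

set_option autoImplicit false

/-!
DG algebras from graded subspaces of an algebra with a derivation.
-/

namespace Pool.Agent.N212.DG

/-- A DG algebra from a family of subspaces of a ring. -/
def DGAlg.ofSub {k B : Type} [Field k] [Ring B] [Module k B] (S : ℤ → Submodule k B)
    (D : B →ₗ[k] B) (hs : ∀ (c : k) (a b : B), (c • a) * b = c • (a * b))
    (hs' : ∀ (c : k) (a b : B), a * (c • b) = c • (a * b)) (h1 : (1 : B) ∈ S 0)
    (hm : ∀ {p q : ℤ} {a b : B}, a ∈ S p → b ∈ S q → a * b ∈ S (p + q))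
    (hD : ∀ {p : ℤ} {a : B}, a ∈ S p → D a ∈ S (p + 1)) (hDD : ∀ a, D (D a) = 0)
    (hL : ∀ {p : ℤ} {a : B}, a ∈ S p → ∀ b : B,
      D (a * b) = D a * b + p.negOnePow • (a * D b)) : DGAlg.{0, 0} k where
  A n := S n
  d p q h := LinearMap.codRestrict (S q) (D ∘ₗ (S p).subtype) (fun a => by
    rw [← h]
    exact hD a.2)
  mul {p q r} h := LinearMap.mk₂ k (fun a b => ⟨(a : B) * (b : B), by
    rw [← h]
    exact hm a.2 b.2⟩)
    (fun a a' b => Subtype.ext (add_mul _ _ _)) (fun c a b => Subtype.ext (hs c a b))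
    (fun a b b' => Subtype.ext (mul_add _ _ _)) (fun c a b => Subtype.ext (hs' c a b))
  one := ⟨1, h1⟩
  one_mul a := Subtype.ext (_root_.one_mul _)
  mul_one a := Subtype.ext (_root_.mul_one _)
  assoc h₁ h₂ h₃ h₄ a b c := Subtype.ext (mul_assoc _ _ _)
  d_d h₁ h₂ a := Subtype.ext (hDD _)
  d_mul {p q r p' q' r'} h hp hq hr h₁ h₂ a b := by
    apply Subtype.ext
    have h3 := hL a.2 (b : B)
    refine h3.trans ?_
    rcases Int.units_eq_one_or p.negOnePow with e | e
    · rw [e, one_smul, one_smul]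
      rfl
    · rw [e, Units.neg_smul, one_smul, Units.neg_smul, one_smul]
      rfl

end Pool.Agent.N212.DG
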